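import Mathlib
import Pool.Agent.R190.Flc.Exist

set_option autoImplicit false

open Pool.Agent.R190.Flc Set

namespace Pool.Agent.Results.MP_a34ed5_an.NuclearIffRapidPPoint

/-- For every point `p` of the remainder the free locally convex space over `ℕ ∪ {p}` exists, and
it is nuclear iff it is multi-Hilbert iff `p` is a rapid P-point. For some `p` it is neither. -/
theorem result :
    (∀ p : Ultrafilter ℕ, p ∉ range (pure : ℕ → Ultrafilter ℕ) →
      (∃ (L : Type) (_ : AddCommGroup L) (_ : Module ℝ L) (_ : TopologicalSpace L)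
        (δ : NX p → L), IsFreeLCS L δ) ∧
      ∀ (L : Type) [AddCommGroup L] [Module ℝ L] [TopologicalSpace L] (δ : NX p → L),
        IsFreeLCS L δ →
          (Nuclear L ↔ IsPPoint p ∧ IsRapid p) ∧ (MultiHilbert L ↔ IsPPoint p ∧ IsRapid p)) ∧
    ∃ p : Ultrafilter ℕ, p ∉ range (pure : ℕ → Ultrafilter ℕ) ∧
      ∀ (L : Type) [AddCommGroup L] [Module ℝ L] [TopologicalSpace L] (δ : NX p → L),
        IsFreeLCS L δ → ¬ Nuclear L ∧ ¬ MultiHilbert L := by
  refine ⟨fun p hp => ⟨exists_free hp, fun L _ _ _ δ hL => ?_⟩, ?_⟩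
  · rw [← star_iff hp]
    exact ⟨⟨star_of_nuclear hp hL, nuclear_of_star hp hL⟩,
      ⟨star_of_multiHilbert hp hL, multiHilbert_of_star hp hL⟩⟩
  · obtain ⟨p, hp, hS⟩ := exists_not_star
    exact ⟨p, hp, fun L _ _ _ δ hL =>
      ⟨fun h => hS (star_of_nuclear hp hL h), fun h => hS (star_of_multiHilbert hp hL h)⟩⟩

end Pool.Agent.Results.MP_a34ed5_an.NuclearIffRapidPPoint
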